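import Pool.Agent.H837.QB.Final

/-!
# Zero-cycles over the algebraic numbers and the complexity of the rational equivalences of their
reductions

No hypothesis is assumed. `R` is a finitely generated subring of `ℚ̄` (for example the ring of
`S`-integers of a number field), `V` a projective variety given by homogeneous equations over `R`, and
`∑ [x i]`, `∑ [y i]` are effective zero-cycles of the same degree whose points have coordinates in `R`.
For a field `K` with a homomorphism `φ : R → K` they give zero-cycles on the variety `V_φ` over `K`.
Rational equivalences have a *complexity*, a natural number: the degree of the rational curve on a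
symmetric product of `V` together with the number of points one has to add (`RatEq`, `cplx`). Let
`c = c(x, y)` be the minimal complexity over `ℚ̄` (`c = ∞` if the zero-cycles are not rationally
equivalent), and `c_φ` the minimal complexity for the reduction `φ : R → 𝔽̄_p`. The words *for almost all `φ`* mean:
for all prime numbers `p ≥ p₀` and all `φ` with `φ(h) ≠ 0`, for some `p₀` and some `h ≠ 0` in `R`
(`AlmostAll`).

**Theorem A** (individual zero-cycles). The zero-cycles `∑ [x i]` and `∑ [y i]` are rationally equivalent
over `ℚ̄` if and only if they are so over `ℂ`, and if and only if `c < ∞`. For almost all `φ` the reductions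
are rationally equivalent if and only if `c_φ < ∞`. For every number `b` one has
`min(c_φ, b) = min(c, b)` for almost all `φ`.

So the complexities `c_φ` of the reductions are either constant, equal to `c`, for almost all `φ` - if
the zero-cycles are rationally equivalent over `ℚ̄` - or they tend to infinity.

**Application to the question.** Let `V` be smooth and `z = ∑ [x i] - ∑ [y i]`. By the theorems of Roitman
and Milne the Albanese map of a smooth projective variety over `𝔽̄_p` is an isomorphism on zero-cycles of
degree zero. (This and the compatibility of the Albanese map with reduction are not formalised here.)
So if `alb(z) = 0` then `c_φ < ∞` for almost all `φ`, and if `alb(z) ≠ 0` then `c_φ = ∞` for almost all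
`φ`. Hence Beilinson's conjecture, the injectivity of the Albanese map over `ℚ̄`, is equivalent to a
local-global principle with bounds: whenever the reductions of two zero-cycles are rationally equivalent
for almost all `φ` then they are so with bounded complexity. A nonzero element of `F^2(V)` would be a
zero-cycle whose reductions are all rationally equivalent to zero, by rational equivalences whose
complexities tend to infinity.

**Theorem B** (families). Let `T` be an irreducible affine variety over `ℚ̄`, and `f i`, `g i` morphisms
from `T` to `V`, given by vectors of polynomials, `T` and these with coefficients in `R`. Let `C(K)` be the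
supremum of the minimal complexities of rational equivalences between `∑ [f i (t)]` and `∑ [g i (t)]`, for
`t ∈ T(K)` (`Family.complexity`). The following are equivalent:

1. `∑ [f i (t)]` and `∑ [g i (t)]` are rationally equivalent for all `t ∈ T(ℂ)`;
2. the complexities are bounded on `T(ℚ̄)`, that is, `C(ℚ̄) < ∞`;
3. for some number `c` the set of the points `t ∈ T(ℚ̄)` with complexity at most `c` is Zariski dense.

Moreover `C(ℂ) = C(ℚ̄)`, and for every number `b` one has `min(C(φ), b) = min(C(ℚ̄), b)` for almost all
reductions `φ`, where `C(φ)` is the supremum for the points of `T_φ` over `𝔽̄_p`. (Theorem A is the case
that `T` is a point.)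

So if `∑ [f i (t)] - ∑ [g i (t)]` is not zero over `ℂ` for one `t` - for example if the correspondence does
not act as zero on the holomorphic forms of degree `≥ 1` (Mumford) - then the complexities are unbounded
on every Zariski dense subset of `T` that consists of algebraic points, although they are all finite by
the conjecture of Beilinson if the Albanese images of these zero-cycles are zero: each of the sets
`c ≤ b` is contained in a proper closed subset of `T`, and `T(ℚ̄)` is the union of them. For instance, on a
K3 surface over `ℚ̄` the complexity of a rational equivalence between two algebraic points, which is
finite by the conjecture, is greater than `b` outside a proper closed subset of `V × V`, for each `b`.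

## The proof

For a nonprincipal ultrafilter on the natural numbers the ultrapower of `ℚ̄` is isomorphic to `ℂ` over
`ℚ̄`, and the ultraproducts of fields `𝔽̄_p` with growing `p` are isomorphic to `ℂ`; the isomorphism can be
chosen to be compatible with given embeddings of the countable ring `R`. The relation of being rationally
equivalent with complexity at most `c` satisfies the theorem of Łoś, and its union over all `c` is
rational equivalence. This gives everything but `3 ⇒ 1`. For this a sequence of algebraic points of `T`
with complexity at most `c` which avoids more and more hypersurfaces gives a point `t` of the ultrapower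
which is generic over `ℚ̄` and such that the zero-cycles at `t` are rationally equivalent. All complex
points of `T` are specialisations of `t` over `ℚ̄`, and rational equivalence is stable under
specialisation (library, seat Y148).
-/

set_option autoImplicit false

namespace Pool.Agent.Results.MP_2eeeac_ag.ComplexityOfReductions

open MvPolynomial Pool.Agent.H837.UF Pool.Agent.H837.QB

/-- **The minimal complexities of the rational equivalences between the reductions of two zero-cycles
converge to the minimal complexity over the algebraic numbers; they are constant, up to a thin set, or
tend to infinity. The same holds for the suprema of the complexities in families, and these are bounded if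
and only if they are bounded on a Zariski dense set of algebraic points.** -/
theorem result {R : Type} [CommRing R] [Algebra.FiniteType ℤ R] (ι : R →+* AlgebraicClosure ℚ)
    (hι : Function.Injective ι) (e : AlgebraicClosure ℚ →+* ℂ) {r n : ℕ} :
    (∀ (S : Finset (MvPolynomial (Fin (r + 1)) R)) (x y : Fin (n + 1) → Fin (r + 1) → R),
      (∀ i, image ι x i ∈ Cone S ι) → (∀ i, image ι y i ∈ Cone S ι) →
        [Same (Cone S ι) (image ι x) (image ι y),
          Same (Cone S (e.comp ι)) (image (e.comp ι) x) (image (e.comp ι) y),
          cplx (Cone S ι) (image ι x) (image ι y) ≠ ⊤].TFAE ∧
        (AlmostAll R fun _ _ φ => (Same (Cone S φ) (image φ x) (image φ y) ↔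
          cplx (Cone S φ) (image φ x) (image φ y) ≠ ⊤)) ∧
        ∀ b : ℕ, AlmostAll R fun _ _ φ => min (cplx (Cone S φ) (image φ x) (image φ y)) b =
          min (cplx (Cone S ι) (image ι x) (image ι y)) b) ∧
    ∀ (q : ℕ) (Φ : Family R r q n), IsFamily Φ ι →
      [∀ t ∈ Par Φ.E (e.comp ι), Same (Cone Φ.S (e.comp ι)) (val (e.comp ι) Φ.f t)
          (val (e.comp ι) Φ.g t),
        Φ.complexity ι ≠ ⊤, ∃ c : ℕ, Φ.Dense ι c].TFAE ∧
      Φ.complexity (e.comp ι) = Φ.complexity ι ∧
      ∀ b : ℕ, AlmostAll R fun _ _ φ => min (Φ.complexity φ) b = min (Φ.complexity ι) b :=
  ⟨fun S x y hx hy => cycles ι hι e S x y hx hy, fun _ Φ h => families ι hι e Φ h⟩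

end Pool.Agent.Results.MP_2eeeac_ag.ComplexityOfReductions
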