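import Pool.Agent.H834.E.Cov

/-!
# Products of curves that cover elliptic curves, over the algebraic numbers
-/

set_option autoImplicit false

namespace Pool.Agent.Results.MP_2eeeac_ag.CoveringsOfEllipticCurves

open FF Pool.Agent.H834.E Pool.Agent.Q70.KM

/-- Let `k` be an algebraic closure of `ℚ`, let `C` and `D` be smooth projective curves over `k`
(with function fields `K` and `L`), and let `φ : C → E₁` and `ψ : D → E₂` be nonconstant morphisms
to elliptic curves (embeddings of the function fields). For every class `α` of degree zero in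
`Pic(E₁) ⊗ ℚ`, the space of the classes `β` of degree zero in `Pic(D) ⊗ ℚ` such that the exterior
product `φ^* α × β` is zero in `CH_0(C × D) ⊗ ℚ` has infinite dimension. -/
theorem result (k : Type) [Field k] [CharZero k] [IsAlgClosed k] [Algebra.IsAlgebraic ℚ k]
    (K : Type) [Field K] [Algebra k K] [IsFF k K] (L : Type) [Field L] [Algebra k L] [IsFF k L]
    (E₁ E₂ : WeierstrassCurve k) [E₁.IsElliptic] [E₂.IsElliptic]
    (φ : E₁.toAffine.FunctionField →ₐ[k] K) (ψ : E₂.toAffine.FunctionField →ₐ[k] L)
    (α : PicQ k E₁.toAffine.FunctionField) (hα : α ∈ Pic0 k E₁.toAffine.FunctionField) :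
    ¬ FiniteDimensional ℚ (annih (L := L) (pullQ φ α)) :=
  main_cov E₁ E₂ φ ψ hα

end Pool.Agent.Results.MP_2eeeac_ag.CoveringsOfEllipticCurves
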