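import Pool.Agent.H834.ED.Cov2

/-!
# Products of elliptic curves and curves of genus two over the algebraic numbers
-/

set_option autoImplicit false

namespace Pool.Agent.Results.MP_2eeeac_ag.EllipticTimesGenusTwo

open FF Polynomial Pool.Agent.H834.E Pool.Agent.H834.ED Pool.Agent.Q70.KM

/-- Let `k` be an algebraic closure of `ℚ`, let `E : y² = x (x - 1) (x - l)` be an elliptic curve
and `D : y² = x (x - 1) (x - l) r(x)`, `r` of degree two, a curve of genus two over `k` (function
fields `K₀` and `L₀`; up to a change of the coordinate `x` these are all pairs of a curve `D` of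
genus two and an elliptic curve `E` which is a double covering of the line branched over four of the
six branch points of `D`). Let `φ : C → E` and `ψ : D' → D` be nonconstant morphisms of smooth
projective curves (embeddings of the function fields). For every class `α` of degree zero in
`Pic(E) ⊗ ℚ`, the space of the classes `β` of degree zero in `Pic(D') ⊗ ℚ` such that the exterior
product `φ^* α × β` is zero in `CH_0(C × D') ⊗ ℚ` has infinite dimension. -/
theorem result (k : Type) [Field k] [CharZero k] [IsAlgClosed k] [Algebra.IsAlgebraic ℚ k]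
    (l : k) (r : k[X]) (hr : r.natDegree = 2)
    (hsep : (X * (X - 1) * (X - C l) * r : k[X]).Separable)
    (K₀ : Type) [Field K₀] [Algebra k K₀] [IsFF k K₀] (x y : K₀)
    (hE : Dbl k (X * (X - 1) * (X - C l)) x y)
    (L₀ : Type) [Field L₀] [Algebra k L₀] [IsFF k L₀] (x' y' : L₀)
    (hD : Dbl k (X * (X - 1) * (X - C l) * r) x' y')
    (K : Type) [Field K] [Algebra k K] [IsFF k K] (L : Type) [Field L] [Algebra k L] [IsFF k L]
    (φ : K₀ →ₐ[k] K) (ψ : L₀ →ₐ[k] L) (α : PicQ k K₀) (hα : α ∈ Pic0 k K₀) :
    ¬ FiniteDimensional ℚ (annih (L := L) (pullQ φ α)) :=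
  main_cov2 hr hsep hE hD φ ψ hα

end Pool.Agent.Results.MP_2eeeac_ag.EllipticTimesGenusTwo
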