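import Pool.Agent.H367.OS.GWu
import Pool.Agent.H367.OS.Fld

/-!
# Injectivity of the Albanese map over `ℚ̄` and one sequence of cubics over the integers

A relation `r` of size `m` is one of the equations `x_i x_j = x_l`, `x_i + x_j = x_l`, `x_i = 1` with
`i, j, l < m`; the relations are numbered, the number of `r` is `ν(r)` (`relNum`). Let `G_m` be the
following polynomial with integral coefficients (`univG ℤ m`). There are variables `x_i` and `z_ij` for
`i, j < m`, a variable `c_r` for every relation `r`, and variables `y_{r,l}` for all relations `r` and
`l < (m + 1) 2 ^ ν(r)`. The equations (`eqnG`) are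

  `z_ij - x_i x_j`,  `c_r ^ 2 - c_r`,  `c_r ρ_r`,  `(1 - c_r) y_{r,l}`,

where `ρ_r` is the linear polynomial `z_ij - x_l`, `x_i + x_j - x_l` or `x_i - 1` of the relation.
`G_m` is the sum of the equations multiplied by further variables `t_e`, one for each equation. It has
degree three. Let `C_m` be the affine cubic hypersurface `G_m = 1` (`cubG R m` over the ring `R`); it is
smooth over the integers.

For a smooth projective scheme `V` over `ℚ̄` let `CH_n(V)` be the group of the cycles of dimension `n`
on `V` with rational coefficients modulo rational equivalence, and let `cl : CH_n(V) → E_n(V)` be the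
cycle class together with the `ℓ-adic` Abel-Jacobi map: if `V` and the cycle are defined over the
number field `F` (as `V_F`, of dimension `d`), it is the class in `H^{2(d-n)}_cont(V_F, ℚ_ℓ(d-n)) /
F²`, where `F²` is the second step of the Hochschild-Serre filtration, in the direct limit over all
`F`. For `n = 0` the map `cl` is injective if and only if the Albanese map of `V` is injective
(`albanese`): the kernel of the Albanese map is torsion free (Roitman), and `Alb(F) ⊗ ℚ` injects in
`H^1(F, V_ℓ Alb)` (Mordell-Weil, Kummer theory).

For a smooth projective scheme `Y` over `ℚ` let `B^n(Y)` be the dual space of `CH_n(Y_ℚ̄)`, and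
`A^n(Y) ⊆ B^n(Y)` the dual space of the image of `cl`. Both are additive functors of the Chow motive
of `Y`, they are zero for `n < 0` and `n > dim Y`, and they are equal if and only if `cl` is injective
on `CH_n(Y_ℚ̄)`. Every smooth projective scheme over `ℚ̄` is a union of connected components of `Y_ℚ̄`
for some `Y` (`classes`).

For a separated scheme `X` of finite type over `ℚ` let `W(X)` be the weight complex (Gillet, Soulé; a
complex of Chow motives over `ℚ` with rational coefficients, for the cohomology with compact supports;
`W(X) = h(X)` for smooth projective `X`), and put `A^{n,i}(X) = H^i(A^n(W(X)))` and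
`B^{n,i}(X) = H^i(B^n(W(X)))`. `BijAt C Prod.fst n X` says that the maps `A^{n,i}(X) → B^{n,i}(X)` are
isomorphisms for this `n` and all `i`; equivalently, that the maps from the homology groups of
`CH_n(W(X)_ℚ̄)` to those of the complex of the images of `cl` are isomorphisms.

**Theorem.** Let `E_m` be the number of the equations, and for `N ∈ ℕ` let
`idx m n N = n + (m + 1) N + E_m - 1`.

(1) Question Q1 has a positive answer (the Albanese maps of all smooth projective varieties over `ℚ̄`
are injective) if and only if the maps `A^{idx m 0 N, i}(C_m) → B^{idx m 0 N, i}(C_m)` are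
isomorphisms for all `N` and `i`, for infinitely many `m`.

(2) For every `n`, the maps `cl` are injective on `CH_n(V)` for all smooth projective `V` over `ℚ̄` (a
conjecture of Beilinson and Bloch) if and only if the maps `A^{idx m n N, i}(C_m) → B^{idx m n N,
i}(C_m)` are isomorphisms for all `N` and `i`, for infinitely many `m`.

(3) The hypersurfaces `C_m` decide the statements (`Decides`): for every affine scheme `Spec B` of
finite type over `ℚ` and all large `m` there is an `N` such that for `0 ≤ n ≤ m` the statement with
the index `n` for `Spec B` is equivalent to the one with the index `idx m n N` for `C_m`; and for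
every separated scheme `X` of finite type and all large `m`, the statements for `C_m` imply the
statements for `X`.

(4) `G_m` has integral coefficients and degree at most three, and `C_m` is smooth over all rings.

The hypotheses are standard: localisation sequences, affine bundles and products with `𝔾_m`
(`IsWeightPair`); the weight complex of a scheme of dimension at most `d` consists of direct factors of
motives of smooth projective varieties of dimension at most `d`, so that the groups vanish outside of
the dimensions `0, …, d` (`PVanish`, `GenAt`).

Idea of the proof. The projection of `C_m` to the affine space with the coordinates `x, z, c, y` is an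
affine bundle over the complement of the zero set `W_m` of the equations. The scheme `W_m` is the
disjoint union, over all sets `s` of relations (`c_r = 1` for `r ∈ s` and `c_r = 0` for the others), of
the products `X_s × 𝔸 ^ ((m + 1) N(s))`, where `X_s` is the affine scheme defined by the relations in
`s` and `N(s) = ∑_{r ∈ s} 2 ^ ν(r)`. The numbers `N(s)` are different, and the dimension of `X_s` is at
most `m`. So the invariant of `W_m` with the index `q + (m + 1) N(s)`, `0 ≤ q ≤ m`, is the invariant of
`X_s` with the index `q`; the other components do not contribute. Every affine scheme of finite type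
over a prime field is an `X_s`, for all large `m`.

The universal system of relations is the one of helper854 (`Pool.Agent.H854.SQ`).
-/

set_option autoImplicit false

open CategoryTheory CategoryTheory.Limits AlgebraicGeometry Pool.Agent.Y116.UV Pool.Agent.Z125.UN
  Pool.Agent.Q193.LT Pool.Agent.Q49.WU Pool.Agent.H854.SQ Pool.Agent.H367.OS

universe w w'



namespace Pool.Agent.Results.MP_2eeeac_ag.OneSequenceOverTheIntegers

/-- Cycles on the schemes over `F`. -/
structure CycleData (F : Type) [Field F] where
  /-- zero-cycles of degree zero (on each component) modulo rational equivalence -/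
  CH0 : Sch F → ModuleCat.{w'} ℤ
  /-- the points of the Albanese variety -/
  Alb : Sch F → ModuleCat.{w'} ℤ
  /-- the Albanese map -/
  alb : ∀ V, CH0 V ⟶ Alb V
  /-- the cycles of dimension `n`, with rational coefficients -/
  CH : ℕ → Sch F → ModuleCat.{w'} ℚ
  /-- extensions of Galois representations -/
  E : ℕ → Sch F → ModuleCat.{w'} ℚ
  /-- the cycle class with the Abel-Jacobi map -/
  cl : ∀ n V, CH n V ⟶ E n V

/-- Question Q1: the Albanese maps are injective. -/
def Q1 {F : Type} [Field F] (D : CycleData.{w'} F) : Prop :=
  ∀ V : Sch F, SmoothProj V → Function.Injective (D.alb V).hom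

/-- The map `cl` is injective on the cycles of dimension `n`. -/
def Inj {F : Type} [Field F] (D : CycleData.{w'} F) (n : ℕ) (V : Sch F) : Prop :=
  Function.Injective (D.cl n V).hom

/-- The relation of the Albanese maps with the maps `cl` for zero-cycles, and of the maps `cl` with the
groups `A^n`, `B^n`. -/
structure Describes (D : CycleData.{w'} (AlgebraicClosure ℚ)) (C : PairData.{w} ℚ (ℤ × ℤ) ℚ) :
    Prop where
  albanese : ∀ V, SmoothProj V → (Function.Injective (D.alb V).hom ↔ Inj D 0 V)
  classes : ∀ n : ℕ, FromQalg (AlgebraicClosure ℚ) (Inj D n) fun Y => BijAt C Prod.fst n Y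

/-- **Injectivity of the Albanese map over `ℚ̄` and one sequence of cubic hypersurfaces over the
integers.** See the explanations above. -/
theorem result {D : CycleData.{w'} (AlgebraicClosure ℚ)} {C : PairData.{w} ℚ (ℤ × ℤ) ℚ}
    (h : Describes D C) (weight : IsWeightPair C) (vanish : PVanish C Prod.fst)
    (generated : GenAt C Prod.fst) (point : BijAll C (aff ℚ ℚ)) :
    (Q1 D ↔ ∃ᶠ m in Filter.atTop, ∀ N : ℕ, BijAt C Prod.fst (idx m 0 N) (cubG ℚ m)) ∧
    (∀ n : ℕ, (∀ V, SmoothProj V → Inj D n V) ↔
      ∃ᶠ m in Filter.atTop, ∀ N : ℕ, BijAt C Prod.fst (idx m n N) (cubG ℚ m)) ∧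
    Decides (BijAt C Prod.fst) ∧
    ∀ m : ℕ, (univG ℤ m).totalDegree ≤ 3 ∧
      ∀ (R : Type) [CommRing R], MvPolynomial.map (Int.castRingHom R) (univG ℤ m) = univG R m ∧
        Smooth (cubG R m).hom := by
  have hd : Decides (BijAt C Prod.fst) :=
    decides_pair isPrimeField_rat generated weight graded_weight vanish point
  have h1 : ∀ n : ℕ, (∀ V, SmoothProj V → Inj D n V) ↔
      ∃ᶠ m in Filter.atTop, ∀ N : ℕ, BijAt C Prod.fst (idx m n N) (cubG ℚ m) :=
    fun n => (h.classes n).all.trans ((hd.index n).out 1 0)
  exact ⟨(forall₂_congr h.albanese).trans (h1 0), h1, hd, cubG_facts⟩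

end Pool.Agent.Results.MP_2eeeac_ag.OneSequenceOverTheIntegers
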